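import Pool.Agent.Q154.OP.AL3

/-!
# OP-AL: an attracting fixed point attracts a critical point, effectively, without landing
-/

set_option autoImplicit false

namespace Pool.Agent.Q154.OP

open Pool.Agent.W277.UB Pool.Agent.W277.UG Pool.Agent.W277.UH Finset Polynomial
open Pool.Agent.Y706.CH (bK)
open Pool.Agent.Q103.OP (Wr Jv mlt Rat S_INV S_ITER S_AL)

universe u

section

variable {Ω : Type u} [NormedField Ω] [IsUltrametricDist Ω] [IsAlgClosed Ω]
  {d : ℕ} {p q : Polynomial Ω} {R : ℝ} {X₀ E : Ω × Ω} {μ lam : Ω}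

theorem crit_near (hINV : S_INV.{u}) (hIT : S_ITER.{u}) (A : Att Ω d p q R X₀ E μ lam) (N : ℕ)
    (hN2 : 2 ≤ N)
    (hN : ((d : ℝ) + 1) * (-Real.log ‖lam‖) + (2 * d + 4) * R < N * d * (-Real.log ‖lam‖)) :
    ∃ Z : Ω × Ω, Z ≠ 0 ∧ wd ((bK d p q)^[N] Z) X₀ ≠ 0 ∧
      ‖wd ((bK d p q)^[N] Z) X₀‖ < ‖lam‖ * Real.exp (-(2 * R)) * ‖(bK d p q)^[N] Z‖ ∧
      ∃ a, a < N ∧ Jv d p q ((bK d p q)^[a] Z) = 0 := by
  have hinf := infinite_of A.h1
  have hch : CharZero Ω := charZero_of_inj_zero fun n hn => by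
    by_contra h
    have := A.h1 n h
    rw [hn, norm_zero] at this
    exact zero_ne_one this
  have hd := A.hd
  obtain ⟨P, Q, hr, hF, hJN⟩ := hIT Ω d hd p q A.rat N
  obtain ⟨D, hDdef⟩ : ∃ D, D = d ^ N := ⟨_, rfl⟩
  rw [← hDdef] at hr hF hJN
  have hD : 1 ≤ D := by rw [hDdef]; exact Nat.one_le_pow _ _ (by omega)
  have hP : P.natDegree ≤ D := hr.2 ▸ le_max_left _ _
  have hQ : Q.natDegree ≤ D := hr.2 ▸ le_max_right _ _
  have hlp := A.ntpos
  have hmp := A.mu_pos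
  obtain ⟨κ, hκ⟩ : ∃ κ, κ = ‖lam‖ * Real.exp (-(2 * R)) := ⟨_, rfl⟩
  have hκ0 : 0 < κ := by rw [hκ]; exact mul_pos hlp (Real.exp_pos _)
  have hXne := ne_of_norm_one A.hX
  have hEne := ne_of_norm_one A.hE
  -- a point which is mapped to `E`
  obtain ⟨c₀, η₀, hc₀, hη₀, hf₀⟩ := fac D hD P Q hr E hEne
  obtain ⟨V, hV⟩ : ∃ V, V = η₀ ⟨0, hD⟩ := ⟨_, rfl⟩
  have hV1 : ‖V‖ = 1 := by rw [hV]; exact hη₀ _
  have hVE : wd (bK D P Q V) E = 0 := by
    rw [hf₀, Finset.prod_eq_zero (Finset.mem_univ (⟨0, hD⟩ : Fin D)) (by rw [hV]; exact wd_self _),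
      mul_zero]
  have hVX : wd V X₀ ≠ 0 := by
    intro h
    have h2 := A.stay V h N
    have h3 := A.norm_co ((bK d p q)^[N] V)
    rw [h2, ← hF, hVE, norm_zero, max_self] at h3
    apply A.F_iter_ne (ne_of_norm_one hV1) N
    rw [← hF]
    exact norm_eq_zero.mp h3
  have hVXne : ∀ y : Ω, X₀ + y • V ≠ 0 := by
    intro y h
    apply hVX
    have h2 : wd V (X₀ + y • V) = wd V X₀ := by
      unfold wd
      simp only [Prod.fst_add, Prod.snd_add, Prod.smul_fst, Prod.smul_snd, smul_eq_mul]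
      ring
    rw [← h2, h]
    unfold wd
    simp
  obtain ⟨a, ha⟩ : ∃ a, a = Pv D P Q X₀ V X₀ := ⟨_, rfl⟩
  obtain ⟨b, hb⟩ : ∃ b, b = Pv D P Q X₀ V E := ⟨_, rfl⟩
  have hae : ∀ y, a.eval y = wd ((bK d p q)^[N] (X₀ + y • V)) X₀ := by
    intro y
    rw [ha, Pv_eval, hF]
  have hbe : ∀ y, b.eval y = wd ((bK d p q)^[N] (X₀ + y • V)) E := by
    intro y
    rw [hb, Pv_eval, hF]
  have hco : IsCoprime a b := by
    refine (isCoprime_iff_aeval_ne_zero_of_isAlgClosed (k := Ω) Ω _ _).mpr ?_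
    intro y
    by_contra hcon
    push Not at hcon
    obtain ⟨h2, h3⟩ := hcon
    rw [coe_aeval_eq_eval, hae] at h2
    rw [coe_aeval_eq_eval, hbe] at h3
    have h4 := A.norm_co ((bK d p q)^[N] (X₀ + y • V))
    rw [h2, h3, norm_zero, max_self] at h4
    exact A.F_iter_ne (hVXne y) N (norm_eq_zero.mp h4)
  have haD : a.coeff D ≠ 0 := by
    rw [ha, Pv_coeff]
    intro h
    have h3 := A.norm_co (bK D P Q V)
    rw [h, hVE, norm_zero, max_self, hF] at h3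
    exact A.F_iter_ne (ne_of_norm_one hV1) N (norm_eq_zero.mp h3)
  have hbD : b.coeff D = 0 := by
    rw [hb, Pv_coeff, hVE]
  have hdeg : b.natDegree < a.natDegree := by
    have h2 : D ≤ a.natDegree := le_natDegree_of_ne_zero haD
    have h3 : b.natDegree ≤ D := by rw [hb]; exact Pv_deg _ _ _ _ _ _
    refine lt_of_lt_of_le (lt_of_le_of_ne h3 fun h4 => ?_) h2
    rw [← h4] at hbD
    have h5 : b = 0 := leadingCoeff_eq_zero.mp hbD
    rw [h5, natDegree_zero] at h4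
    omega
  obtain ⟨m, hm, hmX, hmJ⟩ := A.orbit N
  have ha0 : a.eval 0 = 0 := by
    rw [hae, zero_smul, add_zero]
    exact A.stay X₀ (wd_self _) N
  have hb0 : b.eval 0 = m * wd X₀ E := by
    rw [hbe, zero_smul, add_zero, hmX, wd_smul_left]
  have hXE0 : wd X₀ E ≠ 0 := by
    rw [wd_comm]
    exact neg_ne_zero.mpr A.wdE_ne
  have hda : (derivative a).eval 0 = wd V X₀ * m * lam ^ N := by
    have h2 := Wr_Pv D hD P Q hP hQ X₀ V X₀ E hVX 0
    rw [← ha, ← hb, zero_smul, add_zero, hJN, hmJ] at h2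
    unfold Wr at h2
    rw [eval_sub, eval_mul, eval_mul, ha0, zero_mul, sub_zero, hb0] at h2
    have h3 : (m * wd X₀ E) * ((derivative a).eval 0) =
        (m * wd X₀ E) * (wd V X₀ * m * lam ^ N) := by
      linear_combination h2
    exact mul_left_cancel₀ (mul_ne_zero hm hXE0) h3
  have hda0 : (derivative a).eval 0 ≠ 0 := by
    rw [hda]
    exact mul_ne_zero (mul_ne_zero hVX hm) (pow_ne_zero _ A.hl0)
  have hrat : ‖(derivative a).eval 0 / b.eval 0‖ = ‖wd V X₀‖ * ‖lam‖ ^ N := by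
    rw [hda, hb0, norm_div, norm_mul, norm_mul, norm_mul, norm_pow, A.hXE]
    have : ‖m‖ ≠ 0 := norm_ne_zero_iff.mpr hm
    field_simp
  by_contra hcon
  -- the critical values are far
  have hcrit : ∀ y, (Wr a b).eval y = 0 → b.eval y ≠ 0 → a.eval y ≠ 0 →
      κ ≤ ‖a.eval y / b.eval y‖ := by
    intro y hy hby hay
    by_contra hlt
    push Not at hlt
    apply hcon
    refine ⟨X₀ + y • V, hVXne y, ?_, ?_, ?_⟩
    · rw [← hae]
      exact hay
    · rw [← hκ, ← hae]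
      rw [norm_div, div_lt_iff₀ (norm_pos_iff.mpr hby)] at hlt
      refine lt_of_lt_of_le hlt (mul_le_mul_of_nonneg_left ?_ hκ0.le)
      rw [hbe]
      have := norm_wd_le ((bK d p q)^[N] (X₀ + y • V)) E
      rwa [A.hE, mul_one] at this
    · rw [ha, hb, Wr_Pv D hD P Q hP hQ X₀ V X₀ E hVX y, hJN] at hy
      have h2 : ∏ j ∈ range N, Jv d p q ((bK d p q)^[j] (X₀ + y • V)) = 0 := by
        rcases mul_eq_zero.mp hy with h3 | h3
        · exact absurd h3 hXE0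
        · exact (mul_eq_zero.mp h3).resolve_left hVX
      obtain ⟨j, hj, hj0⟩ := Finset.prod_eq_zero_iff.mp h2
      exact ⟨j, Finset.mem_range.mp hj, hj0⟩
  have hst := hINV Ω A.h1 ⟨lam, A.hl0, A.hl1⟩ a b hco hdeg ha0 hda0 κ hκ0 hcrit
  rw [hrat] at hst
  -- the preimages of the fixed point are close to `V`
  have hclose : ∀ Z : Ω × Ω, Z ≠ 0 → wd ((bK d p q)^[N] Z) X₀ = 0 → wd Z X₀ ≠ 0 →
      ‖wd Z V‖ * κ ≤ ‖lam‖ ^ N * ‖Z‖ := by
    intro Z hZ hZ1 hZ2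
    by_cases hZV : wd Z V = 0
    · rw [hZV, norm_zero, zero_mul]
      positivity
    · have hXV : wd X₀ V ≠ 0 := by
        rw [wd_comm]
        exact neg_ne_zero.mpr hVX
      have hXZ : wd X₀ Z ≠ 0 := by
        rw [wd_comm]
        exact neg_ne_zero.mpr hZ2
      obtain ⟨e, he⟩ : ∃ e, e = wd Z V / wd X₀ V := ⟨_, rfl⟩
      obtain ⟨al, hal⟩ : ∃ al, al = wd X₀ Z / wd Z V := ⟨_, rfl⟩
      have he0 : e ≠ 0 := by rw [he]; exact div_ne_zero hZV hXV
      have hal0 : al ≠ 0 := by rw [hal]; exact div_ne_zero hXZ hZV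
      have hdec : Z = e • (X₀ + al • V) := by
        have h3 := wd_three X₀ V Z
        have h4 : (wd X₀ V)⁻¹ • (wd X₀ V • Z) =
            (wd X₀ V)⁻¹ • (wd X₀ Z • V - wd V Z • X₀) := by rw [h3]
        rw [smul_smul, inv_mul_cancel₀ hXV, one_smul] at h4
        rw [h4, wd_comm V Z, neg_smul, sub_neg_eq_add, smul_add, smul_add, smul_smul, smul_smul,
          smul_smul, add_comm]
        congr 2
        · rw [he]
          field_simp
        · rw [he, hal]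
          field_simp
      have hev : a.eval al = 0 := by
        rw [hae, ← hF]
        rw [← hF, hdec, bK_smul, wd_smul_left] at hZ1
        exact (mul_eq_zero.mp hZ1).resolve_left (pow_ne_zero _ he0)
      have h5 := hst al hal0 hev
      have hZVp : 0 < ‖wd Z V‖ := norm_pos_iff.mpr hZV
      have h6 : ‖al‖ * ‖wd Z V‖ = ‖wd X₀ Z‖ := by
        rw [hal, norm_div, div_mul_cancel₀ _ hZVp.ne']
      have h7 : ‖wd V X₀‖ ≤ 1 := by
        have := norm_wd_le V X₀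
        rwa [hV1, A.hX, mul_one] at this
      have h8 : ‖wd X₀ Z‖ ≤ ‖Z‖ := by
        have := norm_wd_le X₀ Z
        rwa [A.hX, one_mul] at this
      calc ‖wd Z V‖ * κ ≤ ‖wd Z V‖ * (‖wd V X₀‖ * ‖lam‖ ^ N * ‖al‖) :=
            mul_le_mul_of_nonneg_left h5 hZVp.le
        _ = (‖wd V X₀‖ * ‖lam‖ ^ N) * (‖al‖ * ‖wd Z V‖) := by ring
        _ = (‖wd V X₀‖ * ‖lam‖ ^ N) * ‖wd X₀ Z‖ := by rw [h6]
        _ ≤ (1 * ‖lam‖ ^ N) * ‖Z‖ := by
            apply mul_le_mul _ h8 (norm_nonneg _) (by positivity)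
            exact mul_le_mul_of_nonneg_right h7 (by positivity)
        _ = ‖lam‖ ^ N * ‖Z‖ := by rw [one_mul]
  -- another preimage of the fixed point and its preimages
  obtain ⟨x, hx1, hx2, hx3⟩ := A.other
  have hxne := ne_of_norm_one hx1
  obtain ⟨c, η, hc, hη, hf⟩ := fac d (by omega) p q A.rat x hxne
  have hxN : wd ((bK d p q)^[N] x) X₀ = 0 := by
    obtain ⟨k, hk⟩ : ∃ k, N = k + 1 := ⟨N - 1, by omega⟩
    rw [hk, Function.iterate_succ_apply]
    exact A.stay _ hx3 k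
  have hηF : ∀ l, wd (bK d p q (η l)) x = 0 := by
    intro l
    rw [hf, Finset.prod_eq_zero (Finset.mem_univ l) (wd_self _), mul_zero]
  have hηN : ∀ l, wd ((bK d p q)^[N] (η l)) X₀ = 0 := by
    intro l
    obtain ⟨k, hk⟩ : ∃ k, N = k + 1 + 1 := ⟨N - 2, by omega⟩
    rw [hk, Function.iterate_succ_apply, Function.iterate_succ_apply]
    apply A.stay
    obtain ⟨t, ht⟩ := (wd_zero_iff hxne).mp (hηF l)
    rw [ht, bK_smul, wd_smul_left, hx3, mul_zero]
  have hηX : ∀ l, wd (η l) X₀ ≠ 0 := by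
    intro l h
    obtain ⟨t, ht⟩ := (wd_zero_iff hxne).mp (hηF l)
    have h3 := A.stay (η l) h 1
    rw [Function.iterate_one, ht, wd_smul_left] at h3
    rcases mul_eq_zero.mp h3 with h4 | h4
    · apply A.F_ne (ne_of_norm_one (hη l))
      rw [ht, h4, zero_smul]
    · exact hx2 h4
  have hxV := hclose x hxne hxN hx2
  have hηV : ∀ l, ‖wd (η l) V‖ * κ ≤ ‖lam‖ ^ N * 1 := by
    intro l
    have := hclose (η l) (ne_of_norm_one (hη l)) (hηN l) (hηX l)
    rwa [hη l] at this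
  rw [hx1] at hxV
  have hxη : ∀ l, ‖wd x (η l)‖ ≤ ‖lam‖ ^ N / κ := by
    intro l
    refine (wd_ultra (U := V) hx1 (hη l) hV1).trans (max_le ?_ ?_)
    · rw [le_div_iff₀ hκ0]
      linarith
    · rw [wd_comm, norm_neg, le_div_iff₀ hκ0]
      have := hηV l
      linarith
  have hcn : ‖c‖ ≤ Real.exp R := by
    obtain ⟨j, hj⟩ := good_dir A.h1 d η hη
    have h3 := congrArg norm (hf (((j : Ω), 1) : Ω × Ω))
    rw [norm_mul, norm_prod, Finset.prod_congr rfl fun l _ => hj l, Finset.prod_const_one,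
      mul_one] at h3
    rw [← h3]
    refine (norm_wd_le _ _).trans ?_
    rw [hx1, mul_one]
    have h4 := A.up (((j : Ω), 1) : Ω × Ω)
    rwa [norm_pair_one (norm_nat_le A.h1 j), one_pow, mul_one] at h4
  have hup : ‖wd (bK d p q x) x‖ ≤ Real.exp R * (‖lam‖ ^ N / κ) ^ d := by
    rw [hf, norm_mul, norm_prod]
    apply mul_le_mul hcn _ (Finset.prod_nonneg fun _ _ => norm_nonneg _) (Real.exp_pos _).le
    calc ∏ l, ‖wd x (η l)‖ ≤ ∏ l : Fin d, (‖lam‖ ^ N / κ) :=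
          Finset.prod_le_prod (fun _ _ => norm_nonneg _) fun l _ => hxη l
      _ = (‖lam‖ ^ N / κ) ^ d := by
          rw [Finset.prod_const, Finset.card_univ, Fintype.card_fin]
  have hxκ : κ ≤ ‖wd x X₀‖ := by
    by_contra hlt
    push Not at hlt
    have h3 := A.contr x (by rw [hx1, mul_one, ← hκ]; exact hlt)
    rw [hx3, norm_zero, zero_mul] at h3
    have h4 : 0 < ‖lam‖ * ‖wd x X₀‖ * ‖bK d p q x‖ :=
      mul_pos (mul_pos hlp (norm_pos_iff.mpr hx2)) (norm_pos_iff.mpr (A.F_ne hxne))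
    linarith
  have hlow : Real.exp (-R) * κ ≤ ‖wd (bK d p q x) x‖ := by
    obtain ⟨t, ht⟩ := (wd_zero_iff hXne).mp hx3
    have h3 := A.lo x
    rw [hx1, one_pow, mul_one, ht, norm_smul, A.hX, mul_one] at h3
    rw [ht, wd_smul_left, norm_mul, wd_comm X₀ x, norm_neg]
    exact mul_le_mul h3 hxκ hκ0.le (norm_nonneg _)
  have hfin := hlow.trans hup
  obtain ⟨L, hL⟩ : ∃ L, L = -Real.log ‖lam‖ := ⟨_, rfl⟩
  have hlam : ‖lam‖ = Real.exp (-L) := by
    rw [hL, neg_neg, Real.exp_log hlp]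
  have hκe : κ = Real.exp (-L - 2 * R) := by
    rw [hκ, hlam, ← Real.exp_add]
    congr 1
  rw [hκe, hlam, ← Real.exp_nat_mul, ← Real.exp_sub, ← Real.exp_nat_mul, ← Real.exp_add,
    ← Real.exp_add, Real.exp_le_exp] at hfin
  rw [← hL] at hN
  nlinarith

end

theorem t_AL (hINV : S_INV.{u}) (hIT : S_ITER.{u}) : S_AL.{u} := by
  intro d hd
  refine ⟨4, by norm_num, ?_⟩
  intro Ω _ _ _ h1 p q hr R hR hb X₀ μ hX₀ hμ hfix hl0 hl1 n hn
  obtain ⟨lam, hlam⟩ : ∃ lam, lam = mlt d p q 1 X₀ μ := ⟨_, rfl⟩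
  rw [← hlam] at hl0 hl1 hn ⊢
  obtain ⟨s, U, hs0, hU, hXs, hsn⟩ := exists_unit X₀ hX₀
  obtain ⟨E, hE, hUE⟩ := exists_E U hU
  have hFU : bK d p q U = (μ * s / s ^ d) • U := by
    have h2 : s ^ d • bK d p q U = (μ * s) • U := by
      rw [← bK_smul, ← hXs, hfix, hXs, smul_smul]
    have h3 : (s ^ d)⁻¹ • (s ^ d • bK d p q U) = (s ^ d)⁻¹ • ((μ * s) • U) := by rw [h2]
    rw [smul_smul, inv_mul_cancel₀ (pow_ne_zero _ hs0), one_smul, smul_smul] at h3
    rw [h3]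
    congr 1
    field_simp
  have hJU : Jv d p q U = lam * (μ * s / s ^ d) ^ 2 := by
    have h2 : Jv d p q X₀ = s ^ (2 * d - 2) * Jv d p q U := by
      unfold Jv
      rw [hXs, hev_smul]
    have h3 : lam = Jv d p q X₀ / μ ^ 2 := by
      rw [hlam]
      unfold mlt
      rw [Finset.prod_range_one]
      rfl
    have h4 : s ^ (2 * d - 2) * s ^ 2 = (s ^ d) ^ 2 := by
      rw [← pow_add, ← pow_mul]
      congr 1
      omega
    rw [h3, h2]
    have h5 : s ^ d ≠ 0 := pow_ne_zero _ hs0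
    field_simp
    linear_combination (-(Jv d p q U)) * h4
  have A : Att Ω d p q R U E (μ * s / s ^ d) lam :=
    { h1 := h1, hd := hd, rat := hr, hR := hR, lo := fun Z => (hb Z).1, up := fun Z => (hb Z).2
      hX := hU, hE := hE, hXE := hUE, fix := hFU, hJ := hJU, hl0 := hl0, hl1 := hl1 }
  have hlp := A.ntpos
  obtain ⟨L, hL⟩ : ∃ L, L = -Real.log ‖lam‖ := ⟨_, rfl⟩
  have hL0 : 0 < L := by
    rw [hL]
    have := Real.log_neg hlp hl1
    linarith
  rw [← hL] at hn ⊢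
  have hdR : (2 : ℝ) ≤ d := by exact_mod_cast hd
  have hdL : 0 < (d : ℝ) * L := by positivity
  obtain ⟨x, hx⟩ : ∃ x : ℝ, x = (((d : ℝ) + 1) * L + (2 * d + 4) * R) / (d * L) := ⟨_, rfl⟩
  have hxm : x * (d * L) = ((d : ℝ) + 1) * L + (2 * d + 4) * R := by
    rw [hx, div_mul_cancel₀ _ hdL.ne']
  have hx1 : 1 ≤ x := by
    rw [hx, le_div_iff₀ hdL]
    have : 0 ≤ (2 * (d : ℝ) + 4) * R := by positivity
    nlinarith
  obtain ⟨N, hN⟩ : ∃ N, N = ⌊x⌋₊ + 1 := ⟨_, rfl⟩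
  have hN2 : 2 ≤ N := by
    have : 1 ≤ ⌊x⌋₊ := Nat.le_floor (by exact_mod_cast hx1)
    omega
  have hNx : x < N := by
    rw [hN]
    push_cast
    exact Nat.lt_floor_add_one x
  have hNle : (N : ℝ) ≤ x + 1 := by
    rw [hN]
    push_cast
    have := Nat.floor_le (show (0 : ℝ) ≤ x by linarith)
    linarith
  have hNL : (N : ℝ) * L ≤ 5 / 2 * L + 4 * R := by
    have h2 : x * L ≤ 3 / 2 * L + 4 * R := by
      have h3 : (d : ℝ) * (x * L) ≤ d * (3 / 2 * L + 4 * R) := by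
        nlinarith
      exact le_of_mul_le_mul_left h3 (by linarith)
    nlinarith
  obtain ⟨Z, hZ0, hZ1, hZ2, a, haN, hJ⟩ := crit_near hINV hIT A N hN2 (by
    rw [← hL, ← hxm]
    nlinarith)
  have hκ1 : 0 < ‖lam‖ * Real.exp (-(2 * R)) := mul_pos hlp (Real.exp_pos _)
  -- the distances
  have hδ : ∀ j : ℕ, 0 < ‖wd ((bK d p q)^[N + j] Z) U‖ / ‖(bK d p q)^[N + j] Z‖ ∧
      ‖wd ((bK d p q)^[N + j] Z) U‖ / ‖(bK d p q)^[N + j] Z‖ <
        ‖lam‖ ^ j * (‖lam‖ * Real.exp (-(2 * R))) := by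
    intro j
    induction j with
    | zero =>
      have h2 : 0 < ‖(bK d p q)^[N] Z‖ := norm_pos_iff.mpr (A.F_iter_ne hZ0 N)
      rw [add_zero, pow_zero, one_mul]
      refine ⟨div_pos (norm_pos_iff.mpr hZ1) h2, ?_⟩
      rw [div_lt_iff₀ h2]
      exact hZ2
    | succ j ih =>
      obtain ⟨ih1, ih2⟩ := ih
      have h2 : 0 < ‖(bK d p q)^[N + j] Z‖ := norm_pos_iff.mpr (A.F_iter_ne hZ0 _)
      have h3 : 0 < ‖bK d p q ((bK d p q)^[N + j] Z)‖ :=
        norm_pos_iff.mpr (A.F_ne (A.F_iter_ne hZ0 _))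
      have h4 : ‖lam‖ ^ j ≤ 1 := pow_le_one₀ hlp.le hl1.le
      have h5 : ‖wd ((bK d p q)^[N + j] Z) U‖ <
          ‖lam‖ * Real.exp (-(2 * R)) * ‖(bK d p q)^[N + j] Z‖ := by
        rw [div_lt_iff₀ h2] at ih2
        refine lt_of_lt_of_le ih2 (mul_le_mul_of_nonneg_right ?_ h2.le)
        calc ‖lam‖ ^ j * (‖lam‖ * Real.exp (-(2 * R))) ≤ 1 * (‖lam‖ * Real.exp (-(2 * R))) :=
              mul_le_mul_of_nonneg_right h4 hκ1.le
          _ = _ := one_mul _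
      have h6 := A.contr _ h5
      have h7 : ‖wd (bK d p q ((bK d p q)^[N + j] Z)) U‖ / ‖bK d p q ((bK d p q)^[N + j] Z)‖ =
          ‖lam‖ * (‖wd ((bK d p q)^[N + j] Z) U‖ / ‖(bK d p q)^[N + j] Z‖) := by
        rw [div_eq_iff h3.ne']
        field_simp
        linear_combination h6
      rw [← add_assoc, Function.iterate_succ_apply', h7]
      refine ⟨mul_pos hlp ih1, ?_⟩
      calc ‖lam‖ * (‖wd ((bK d p q)^[N + j] Z) U‖ / ‖(bK d p q)^[N + j] Z‖) <
          ‖lam‖ * (‖lam‖ ^ j * (‖lam‖ * Real.exp (-(2 * R)))) := mul_lt_mul_of_pos_left ih2 hlp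
        _ = _ := by ring
  have hnN : (N : ℝ) < n := by
    have h2 : (N : ℝ) * L < n * L := by nlinarith
    exact lt_of_mul_lt_mul_right h2 hL0.le
  have hnN' : N < n := by exact_mod_cast hnN
  obtain ⟨j, hj⟩ : ∃ j, n + a = N + j := ⟨n + a - N, by omega⟩
  have hit : (bK d p q)^[n] ((bK d p q)^[a] Z) = (bK d p q)^[N + j] Z := by
    rw [← Function.iterate_add_apply, hj]
  obtain ⟨hd1, hd2⟩ := hδ j
  have hVp : 0 < ‖(bK d p q)^[N + j] Z‖ := norm_pos_iff.mpr (A.F_iter_ne hZ0 _)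
  have hwp : 0 < ‖wd ((bK d p q)^[N + j] Z) U‖ := by
    by_contra h
    have h2 : ‖wd ((bK d p q)^[N + j] Z) U‖ = 0 := le_antisymm (not_lt.mp h) (norm_nonneg _)
    rw [h2, zero_div] at hd1
    exact lt_irrefl _ hd1
  refine ⟨(bK d p q)^[a] Z, A.F_iter_ne hZ0 a, hJ, ?_, ?_⟩
  · rw [hit, hXs, wd_smul_right]
    exact mul_ne_zero hs0 (norm_pos_iff.mp hwp)
  · rw [hit]
    have e1 : Real.log ‖wd ((bK d p q)^[N + j] Z) X₀‖ =
        Real.log ‖s‖ + Real.log ‖wd ((bK d p q)^[N + j] Z) U‖ := by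
      rw [hXs, wd_smul_right, norm_mul, Real.log_mul (norm_ne_zero_iff.mpr hs0) hwp.ne']
    have e2 : Real.log (‖wd ((bK d p q)^[N + j] Z) U‖ / ‖(bK d p q)^[N + j] Z‖) =
        Real.log ‖wd ((bK d p q)^[N + j] Z) U‖ - Real.log ‖(bK d p q)^[N + j] Z‖ :=
      Real.log_div hwp.ne' hVp.ne'
    have e3 : Real.log (‖wd ((bK d p q)^[N + j] Z) U‖ / ‖(bK d p q)^[N + j] Z‖) ≤
        -(j * L) - L - 2 * R := by
      have h2 := Real.log_le_log hd1 hd2.le
      rw [Real.log_mul (pow_pos hlp _).ne' hκ1.ne', Real.log_mul hlp.ne' (Real.exp_pos _).ne',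
        Real.log_exp, Real.log_pow] at h2
      have h3 : Real.log ‖lam‖ = -L := by rw [hL, neg_neg]
      rw [h3] at h2
      linarith
    have e4 : (j : ℝ) = n + a - N := by
      have : ((n + a : ℕ) : ℝ) = ((N + j : ℕ) : ℝ) := by rw [hj]
      push_cast at this
      linarith
    have e5 : 0 ≤ (a : ℝ) * L := by positivity
    rw [e1, ← hsn]
    rw [e4] at e3
    nlinarith

end Pool.Agent.Q154.OP
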