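import Pool.Agent.Q103.OP.Defs

/-!
# OP-AL, part 1: the algebra of lines in the plane
-/

set_option autoImplicit false

namespace Pool.Agent.Q154.OP

open Pool.Agent.W277.UB Pool.Agent.W277.UG Pool.Agent.W277.UH Finset Polynomial
open Pool.Agent.Y706.CH (bK)
open Pool.Agent.Q103.OP (Wr Jv mlt Rat)

section alg

variable {K : Type*} [Field K]

theorem hev_mul (D D' : ℕ) (A B : K[X]) (hA : A.natDegree ≤ D) (hB : B.natDegree ≤ D')
    (Z : K × K) : hev (D + D') (A * B) Z = hev D A Z * hev D' B Z := by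
  by_cases h : Z.2 = 0
  · have hZ : Z = (Z.1, 0) := Prod.ext rfl h
    rw [hZ, hev_zero, hev_zero, hev_zero, coeff_mul_add_eq_of_natDegree_le hA hB, pow_add]
    ring
  · rw [hev_eval D A hA Z h, hev_eval D' B hB Z h,
      hev_eval (D + D') (A * B) (natDegree_mul_le.trans (add_le_add hA hB)) Z h, eval_mul, pow_add]
    ring

theorem hev_sub (D : ℕ) (A B : K[X]) (Z : K × K) : hev D (A - B) Z = hev D A Z - hev D B Z := by
  unfold hev
  rw [← Finset.sum_sub_distrib]
  refine Finset.sum_congr rfl fun i _ => ?_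
  rw [coeff_sub]
  ring

theorem bK_smul (D : ℕ) (P Q : K[X]) (t : K) (Z : K × K) :
    bK D P Q (t • Z) = t ^ D • bK D P Q Z := by
  unfold bK
  rw [hev_smul, hev_smul]
  rfl

theorem Wr_deg (D : ℕ) (hD : 1 ≤ D) (P Q : K[X]) (hP : P.natDegree ≤ D) (hQ : Q.natDegree ≤ D) :
    (Wr P Q).natDegree ≤ 2 * D - 2 := by
  have h1 : (Wr P Q).natDegree ≤ 2 * D - 1 := by
    unfold Wr
    refine (natDegree_sub_le _ _).trans (max_le ?_ ?_)
    · refine natDegree_mul_le.trans ?_
      have := natDegree_derivative_le P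
      omega
    · refine natDegree_mul_le.trans ?_
      have := natDegree_derivative_le Q
      omega
  have h2 : (Wr P Q).coeff (2 * D - 1) = 0 := by
    have e1 : 2 * D - 1 = (D - 1) + D := by omega
    have hp' : (derivative P).natDegree ≤ D - 1 := (natDegree_derivative_le P).trans (by omega)
    have hq' : (derivative Q).natDegree ≤ D - 1 := (natDegree_derivative_le Q).trans (by omega)
    unfold Wr
    rw [coeff_sub, mul_comm P, e1, coeff_mul_add_eq_of_natDegree_le hp' hQ,
      coeff_mul_add_eq_of_natDegree_le hq' hP, coeff_derivative, coeff_derivative]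
    have e2 : D - 1 + 1 = D := by omega
    rw [e2]
    ring
  by_contra hcon
  have h3 : (Wr P Q).natDegree = 2 * D - 1 := by omega
  rw [← h3] at h2
  have h4 : Wr P Q = 0 := leadingCoeff_eq_zero.mp h2
  rw [h4, natDegree_zero] at h3
  omega

theorem hev_X2 (Z : K × K) : hev 2 (X : K[X]) Z = Z.1 * Z.2 := by
  unfold hev
  simp [coeff_X]

theorem hev_XWr (D : ℕ) (hD : 1 ≤ D) (P Q : K[X]) (hP : P.natDegree ≤ D) (hQ : Q.natDegree ≤ D)
    (Z : K × K) : hev (D + D) (X * Wr P Q) Z = Z.1 * Z.2 * Jv D P Q Z := by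
  have e : D + D = 2 + (2 * D - 2) := by omega
  rw [e, hev_mul 2 (2 * D - 2) X (Wr P Q) (natDegree_X_le.trans (by norm_num))
    (Wr_deg D hD P Q hP hQ), hev_X2]
  rfl

/-- the linear polynomial -/
noncomputable def ln (a v : K) : K[X] := C a + C v * X

theorem ln_eval (a v u : K) : (ln a v).eval u = a + v * u := by
  unfold ln
  simp

theorem ln_deg (a v : K) : (ln a v).natDegree ≤ 1 := by
  unfold ln
  refine (natDegree_add_le _ _).trans (max_le ?_ ?_)
  · simp
  · exact (natDegree_C_mul_le _ _).trans natDegree_X_le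

theorem ln_coeff_one (a v : K) : (ln a v).coeff 1 = v := by
  unfold ln
  simp [coeff_C]

theorem ln_deriv (a v : K) : derivative (ln a v) = C v := by
  unfold ln
  simp

theorem ln_ne {a v : K} (h : a ≠ 0 ∨ v ≠ 0) : ln a v ≠ 0 := by
  intro h0
  have h1 := congrArg (fun g : K[X] => g.coeff 0) h0
  have h2 := congrArg (fun g : K[X] => g.coeff 1) h0
  simp only [ln_coeff_one, coeff_zero] at h2
  have h3 : a = 0 := by
    unfold ln at h1
    simpa using h1
  rcases h with h | h
  · exact h h3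
  · exact h h2

/-- derivative of a form along a line -/
theorem hc_deriv (D : ℕ) (P : K[X]) (a v a' v' u : K) :
    (a + v * u) * (a' + v' * u) * (derivative (hc D P (ln a v) (ln a' v'))).eval u =
      v * (a' + v' * u) * hev D (X * derivative P) (a + v * u, a' + v' * u) +
      v' * (a + v * u) * (D * hev D P (a + v * u, a' + v' * u) -
        hev D (X * derivative P) (a + v * u, a' + v' * u)) := by
  have key : ∀ i ∈ Finset.range (D + 1),
      (a + v * u) * (a' + v' * u) *
        (derivative ((P.map C).coeff i * (ln a v) ^ i * (ln a' v') ^ (D - i))).eval u =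
      v * (a' + v' * u) * ((X * derivative P).coeff i * (a + v * u) ^ i * (a' + v' * u) ^ (D - i)) +
      v' * (a + v * u) * (D * (P.coeff i * (a + v * u) ^ i * (a' + v' * u) ^ (D - i)) -
        (X * derivative P).coeff i * (a + v * u) ^ i * (a' + v' * u) ^ (D - i)) := by
    intro i hi
    rw [Finset.mem_range] at hi
    have e0 : (X * derivative P).coeff i = i * P.coeff i := by
      cases i with
      | zero => simp
      | succ i =>
        rw [coeff_X_mul, coeff_derivative]
        push_cast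
        ring
    obtain ⟨j, hj⟩ : ∃ j, D = i + j := ⟨D - i, by omega⟩
    have e1 : D - i = j := by omega
    rw [e0, e1, coeff_map, derivative_mul, derivative_mul, derivative_C, zero_mul, zero_add,
      derivative_pow, derivative_pow, ln_deriv, ln_deriv]
    simp only [eval_add, eval_mul, eval_pow, eval_C, ln_eval]
    have e2 : (D : K) = i + j := by rw [hj]; push_cast; rfl
    rw [e2]
    generalize a + v * u = x
    generalize a' + v' * u = y
    have e3 : x * ((i : K) * x ^ (i - 1)) = i * x ^ i := by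
      cases i with
      | zero => simp
      | succ i => rw [Nat.add_sub_cancel]; ring
    have e4 : y * ((j : K) * y ^ (j - 1)) = j * y ^ j := by
      cases j with
      | zero => simp
      | succ j => rw [Nat.add_sub_cancel]; ring
    linear_combination (P.coeff i * y * v * y ^ j) * e3 + (P.coeff i * x * v' * x ^ i) * e4
  have h1 : (derivative (hc D P (ln a v) (ln a' v'))).eval u = ∑ i ∈ Finset.range (D + 1),
      (derivative ((P.map C).coeff i * (ln a v) ^ i * (ln a' v') ^ (D - i))).eval u := by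
    unfold hc hev
    rw [derivative_sum, eval_finsetSum]
  rw [h1, Finset.mul_sum, Finset.sum_congr rfl key, Finset.sum_add_distrib, ← Finset.mul_sum,
    ← Finset.mul_sum, Finset.sum_sub_distrib, ← Finset.mul_sum]
  rfl

/-- the Wronskian along a line, before division -/
theorem wr_line0 (D : ℕ) (hD : 1 ≤ D) (P Q : K[X]) (hP : P.natDegree ≤ D) (hQ : Q.natDegree ≤ D)
    (a v a' v' u : K) :
    (a + v * u) * (a' + v' * u) *
      (Wr (hc D P (ln a v) (ln a' v')) (hc D Q (ln a v) (ln a' v'))).eval u =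
    (a + v * u) * (a' + v' * u) * ((v * a' - v' * a) * Jv D P Q (a + v * u, a' + v' * u)) := by
  have h1 := hc_deriv D P a v a' v' u
  have h2 := hc_deriv D Q a v a' v' u
  have hXd : ∀ G : K[X], G.natDegree ≤ D → (X * derivative G).natDegree ≤ D := by
    intro G hG
    refine natDegree_mul_le.trans ?_
    have := natDegree_derivative_le G
    have := natDegree_X_le (R := K)
    omega
  have h3 : hev D (X * derivative P) (a + v * u, a' + v' * u) * hev D Q (a + v * u, a' + v' * u) -
      hev D P (a + v * u, a' + v' * u) * hev D (X * derivative Q) (a + v * u, a' + v' * u) =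
      (a + v * u) * (a' + v' * u) * Jv D P Q (a + v * u, a' + v' * u) := by
    have e5 := hev_XWr D hD P Q hP hQ (a + v * u, a' + v' * u)
    rw [← hev_mul D D _ _ (hXd P hP) hQ, ← hev_mul D D _ _ hP (hXd Q hQ), ← hev_sub]
    refine Eq.trans ?_ e5
    congr 1
    unfold Wr
    ring
  have h4 : (Wr (hc D P (ln a v) (ln a' v')) (hc D Q (ln a v) (ln a' v'))).eval u =
      (derivative (hc D P (ln a v) (ln a' v'))).eval u * hev D Q (a + v * u, a' + v' * u) -
      hev D P (a + v * u, a' + v' * u) * (derivative (hc D Q (ln a v) (ln a' v'))).eval u := by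
    unfold Wr
    rw [eval_sub, eval_mul, eval_mul, hc_eval, hc_eval, ln_eval, ln_eval]
  rw [h4]
  linear_combination hev D Q (a + v * u, a' + v' * u) * h1 -
    hev D P (a + v * u, a' + v' * u) * h2 + (v * a' - v' * a) * h3

/-- the Wronskian along a line -/
theorem wr_line [Infinite K] (D : ℕ) (hD : 1 ≤ D) (P Q : K[X]) (hP : P.natDegree ≤ D)
    (hQ : Q.natDegree ≤ D) (X₀ V : K × K) (hw : wd V X₀ ≠ 0) (u : K) :
    (Wr (hc D P (ln X₀.1 V.1) (ln X₀.2 V.2)) (hc D Q (ln X₀.1 V.1) (ln X₀.2 V.2))).eval u =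
      wd V X₀ * Jv D P Q (X₀ + u • V) := by
  have hl1 : ln X₀.1 V.1 ≠ 0 := by
    apply ln_ne
    by_contra h
    push Not at h
    apply hw
    unfold wd
    rw [h.1, h.2]
    ring
  have hl2 : ln X₀.2 V.2 ≠ 0 := by
    apply ln_ne
    by_contra h
    push Not at h
    apply hw
    unfold wd
    rw [h.1, h.2]
    ring
  have hJ : ∀ u, (hc (2 * D - 2) (Wr P Q) (ln X₀.1 V.1) (ln X₀.2 V.2)).eval u =
      Jv D P Q (X₀.1 + V.1 * u, X₀.2 + V.2 * u) := by
    intro u
    rw [hc_eval, ln_eval, ln_eval]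
    rfl
  have h1 : ln X₀.1 V.1 * ln X₀.2 V.2 *
      Wr (hc D P (ln X₀.1 V.1) (ln X₀.2 V.2)) (hc D Q (ln X₀.1 V.1) (ln X₀.2 V.2)) =
      ln X₀.1 V.1 * ln X₀.2 V.2 *
        (C (wd V X₀) * hc (2 * D - 2) (Wr P Q) (ln X₀.1 V.1) (ln X₀.2 V.2)) := by
    apply Polynomial.funext
    intro u
    have h2 := wr_line0 D hD P Q hP hQ X₀.1 V.1 X₀.2 V.2 u
    rw [eval_mul, eval_mul, ln_eval, ln_eval, h2, eval_mul, eval_mul, ln_eval, ln_eval, eval_mul,
      eval_C, hJ]
    rfl
  have h2 := mul_left_cancel₀ (mul_ne_zero hl1 hl2) h1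
  rw [h2, eval_mul, eval_C, hJ]
  congr 2
  ext
  · simp [mul_comm]
  · simp [mul_comm]

/-- a coordinate of the map along a line -/
noncomputable def Pv (D : ℕ) (P Q : K[X]) (X₀ V W : K × K) : K[X] :=
  hc D P (ln X₀.1 V.1) (ln X₀.2 V.2) * C W.2 - hc D Q (ln X₀.1 V.1) (ln X₀.2 V.2) * C W.1

theorem Pv_eval (D : ℕ) (P Q : K[X]) (X₀ V W : K × K) (u : K) :
    (Pv D P Q X₀ V W).eval u = wd (bK D P Q (X₀ + u • V)) W := by
  unfold Pv wd bK
  rw [eval_sub, eval_mul, eval_mul, hc_eval, hc_eval, ln_eval, ln_eval, eval_C, eval_C]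
  have : (X₀.1 + V.1 * u, X₀.2 + V.2 * u) = X₀ + u • V := by
    ext
    · simp [mul_comm]
    · simp [mul_comm]
  rw [this]

theorem Pv_deg (D : ℕ) (P Q : K[X]) (X₀ V W : K × K) : (Pv D P Q X₀ V W).natDegree ≤ D := by
  unfold Pv
  refine (natDegree_sub_le _ _).trans (max_le ?_ ?_)
  · refine (natDegree_mul_C_le _ _).trans ?_
    have := hc_degree D 1 P (ln X₀.1 V.1) (ln X₀.2 V.2) (ln_deg _ _) (ln_deg _ _)
    omega
  · refine (natDegree_mul_C_le _ _).trans ?_
    have := hc_degree D 1 Q (ln X₀.1 V.1) (ln X₀.2 V.2) (ln_deg _ _) (ln_deg _ _)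
    omega

theorem Pv_coeff (D : ℕ) (P Q : K[X]) (X₀ V W : K × K) :
    (Pv D P Q X₀ V W).coeff D = wd (bK D P Q V) W := by
  have h1 := hc_coeff D 1 P (ln X₀.1 V.1) (ln X₀.2 V.2) (ln_deg _ _) (ln_deg _ _)
  have h2 := hc_coeff D 1 Q (ln X₀.1 V.1) (ln X₀.2 V.2) (ln_deg _ _) (ln_deg _ _)
  rw [mul_one, ln_coeff_one, ln_coeff_one] at h1 h2
  unfold Pv wd bK
  rw [coeff_sub, coeff_mul_C, coeff_mul_C, h1, h2]

theorem Wr_Pv [Infinite K] (D : ℕ) (hD : 1 ≤ D) (P Q : K[X]) (hP : P.natDegree ≤ D)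
    (hQ : Q.natDegree ≤ D) (X₀ V W W' : K × K) (hw : wd V X₀ ≠ 0) (u : K) :
    (Wr (Pv D P Q X₀ V W) (Pv D P Q X₀ V W')).eval u =
      wd W W' * (wd V X₀ * Jv D P Q (X₀ + u • V)) := by
  rw [← wr_line D hD P Q hP hQ X₀ V hw u]
  unfold Pv Wr wd
  simp only [derivative_sub, derivative_mul, derivative_C, mul_zero, add_zero, eval_sub, eval_mul,
    eval_C]
  ring

end alg

end Pool.Agent.Q154.OP
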