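import Pool.Agent.Q154.OP.AL1

/-!
# OP-AL, part 2: ultrametric preparations
-/

set_option autoImplicit false

namespace Pool.Agent.Q154.OP

open Pool.Agent.W277.UB Pool.Agent.W277.UG Pool.Agent.W277.UH Finset Polynomial
open Pool.Agent.Y706.CH (bK)
open Pool.Agent.Q103.OP (Wr Jv mlt Rat)

universe u

section ultra

variable {Ω : Type u} [NormedField Ω] [IsUltrametricDist Ω]

theorem norm_nat_le (h1 : ∀ n : ℕ, n ≠ 0 → ‖(n : Ω)‖ = 1) (n : ℕ) : ‖(n : Ω)‖ ≤ 1 := by
  by_cases h : n = 0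
  · rw [h]
    simp
  · exact (h1 n h).le

theorem norm_nat_sub (h1 : ∀ n : ℕ, n ≠ 0 → ‖(n : Ω)‖ = 1) (i j : ℕ) (h : i ≠ j) :
    ‖(i : Ω) - (j : Ω)‖ = 1 := by
  rcases lt_or_gt_of_ne h with h | h
  · have : (i : Ω) - (j : Ω) = -((j - i : ℕ) : Ω) := by
      rw [Nat.cast_sub h.le]
      ring
    rw [this, norm_neg]
    exact h1 _ (by omega)
  · have : (i : Ω) - (j : Ω) = ((i - j : ℕ) : Ω) := by
      rw [Nat.cast_sub h.le]
    rw [this]
    exact h1 _ (by omega)

theorem infinite_of (h1 : ∀ n : ℕ, n ≠ 0 → ‖(n : Ω)‖ = 1) : Infinite Ω := by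
  refine Infinite.of_injective (fun n : ℕ => (n : Ω)) fun i j hij => ?_
  by_contra h
  have := norm_nat_sub h1 i j h
  simp only at hij
  rw [hij, sub_self, norm_zero] at this
  exact zero_ne_one this

theorem sub_le_max' (x y : Ω) : ‖x - y‖ ≤ max ‖x‖ ‖y‖ := by
  have := tri x 0 y
  simpa using this

theorem add_le_max' (x y : Ω) : ‖x + y‖ ≤ max ‖x‖ ‖y‖ := IsUltrametricDist.norm_add_le_max _ _

/-- `‖x‖ = ‖y‖` if the difference is smaller than `y` -/
theorem norm_eq_of_sub_lt {x y : Ω} (h : ‖x - y‖ < ‖y‖) : ‖x‖ = ‖y‖ := by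
  apply le_antisymm
  · have : x = (x - y) + y := by ring
    rw [this]
    exact (add_le_max' _ _).trans (max_le h.le le_rfl)
  · by_contra hlt
    push Not at hlt
    have h2 : y = x - (x - y) := by ring
    have h3 : ‖y‖ ≤ max ‖x‖ ‖x - y‖ := by
      conv_lhs => rw [h2]
      exact sub_le_max' _ _
    exact absurd h3 (not_le.mpr (max_lt hlt h))

/-- a direction which is far from finitely many given ones -/
theorem good_dir (h1 : ∀ n : ℕ, n ≠ 0 → ‖(n : Ω)‖ = 1) (D : ℕ) (η : Fin D → Ω × Ω)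
    (hη : ∀ l, ‖η l‖ = 1) : ∃ j : ℕ, ∀ l, ‖wd (((j : Ω), 1) : Ω × Ω) (η l)‖ = 1 := by
  have hle : ∀ (j : ℕ) l, ‖wd (((j : Ω), 1) : Ω × Ω) (η l)‖ ≤ 1 := by
    intro j l
    refine (norm_wd_le _ _).trans ?_
    rw [hη l, mul_one, norm_pair_one (norm_nat_le h1 j)]
  by_contra hcon
  push Not at hcon
  choose l hl using hcon
  obtain ⟨i, j, hij, hlij⟩ := Finite.exists_ne_map_eq_of_infinite l
  have h2 : ‖wd (((i : Ω), 1) : Ω × Ω) (η (l i))‖ < 1 := lt_of_le_of_ne (hle _ _) (hl i)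
  have h3 : ‖wd (((j : Ω), 1) : Ω × Ω) (η (l i))‖ < 1 := by
    rw [hlij]
    exact lt_of_le_of_ne (hle _ _) (hl j)
  have h4 : ‖((i : Ω) - (j : Ω)) * (η (l i)).2‖ < 1 := by
    have e : ((i : Ω) - (j : Ω)) * (η (l i)).2 =
        wd (((i : Ω), 1) : Ω × Ω) (η (l i)) - wd (((j : Ω), 1) : Ω × Ω) (η (l i)) := by
      unfold wd
      ring
    rw [e]
    exact lt_of_le_of_lt (sub_le_max' _ _) (max_lt h2 h3)
  rw [norm_mul, norm_nat_sub h1 i j hij, one_mul] at h4
  have h5 : ‖(η (l i)).1‖ = 1 := by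
    have := hη (l i)
    rw [Prod.norm_def] at this
    rcases max_choice ‖(η (l i)).1‖ ‖(η (l i)).2‖ with h | h
    · rw [← h, this]
    · rw [h] at this
      linarith
  have h6 : ‖(η (l i)).1‖ < 1 := by
    have e : (η (l i)).1 = (i : Ω) * (η (l i)).2 - wd (((i : Ω), 1) : Ω × Ω) (η (l i)) := by
      unfold wd
      ring
    rw [e]
    refine lt_of_le_of_lt (sub_le_max' _ _) (max_lt ?_ h2)
    rw [norm_mul]
    calc ‖(i : Ω)‖ * ‖(η (l i)).2‖ ≤ 1 * ‖(η (l i)).2‖ :=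
          mul_le_mul_of_nonneg_right (norm_nat_le h1 i) (norm_nonneg _)
      _ < 1 := by rw [one_mul]; exact h4
  linarith

theorem norm_sum_le' {ι : Type*} (s : Finset ι) (f : ι → Ω) (M : ℝ) (hM : 0 ≤ M)
    (h : ∀ i ∈ s, ‖f i‖ ≤ M) : ‖∑ i ∈ s, f i‖ ≤ M := by
  classical
  induction s using Finset.induction_on with
  | empty => simpa using hM
  | insert a s ha ih =>
    rw [Finset.sum_insert ha]
    refine (add_le_max' _ _).trans (max_le (h a (Finset.mem_insert_self _ _)) ?_)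
    exact ih fun i hi => h i (Finset.mem_insert_of_mem hi)

theorem prod_coeff_le {ι : Type*} (s : Finset ι) (g : ι → Polynomial Ω)
    (h : ∀ l ∈ s, ∀ i, ‖(g l).coeff i‖ ≤ 1) (i : ℕ) : ‖(∏ l ∈ s, g l).coeff i‖ ≤ 1 := by
  classical
  induction s using Finset.induction_on generalizing i with
  | empty =>
    rw [Finset.prod_empty, coeff_one]
    split_ifs <;> simp
  | insert a s ha ih =>
    rw [Finset.prod_insert ha, coeff_mul]
    apply norm_sum_le' _ _ _ zero_le_one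
    intro x _
    rw [norm_mul]
    exact mul_le_one₀ (h a (Finset.mem_insert_self _ _) _) (norm_nonneg _)
      (ih (fun l hl => h l (Finset.mem_insert_of_mem hl)) _)

variable [IsAlgClosed Ω]

/-- normalised factorisation of a form -/
theorem fac0 (d : ℕ) (h : Polynomial Ω) (h0 : h ≠ 0) (hd : h.natDegree ≤ d) :
    ∃ (c : Ω) (η : Fin d → Ω × Ω), c ≠ 0 ∧ (∀ l, ‖η l‖ = 1) ∧
      ∀ X, hev d h X = c * ∏ l, wd X (η l) := by
  obtain ⟨c, η, hc, hη, hf⟩ := hev_factor d h h0 hd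
  choose t η' ht hη' he _ using fun l => exists_unit (η l) (hη l)
  refine ⟨c * ∏ l, t l, η', mul_ne_zero hc (Finset.prod_ne_zero_iff.mpr fun l _ => ht l), hη', ?_⟩
  intro X
  rw [hf X, mul_assoc, ← Finset.prod_mul_distrib]
  congr 1
  apply Finset.prod_congr rfl
  intro l _
  conv_lhs => rw [he l, wd_smul_right]

/-- the coefficients are bounded by the values at the natural numbers -/
theorem coeff_le (h1 : ∀ n : ℕ, n ≠ 0 → ‖(n : Ω)‖ = 1) (D : ℕ) (h : Polynomial Ω) (hd : h.natDegree ≤ D)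
    (M : ℝ) (hM : ∀ j : ℕ, ‖h.eval (j : Ω)‖ ≤ M) (i : ℕ) : ‖h.coeff i‖ ≤ M := by
  have hM0 : 0 ≤ M := (norm_nonneg _).trans (hM 0)
  by_cases h0 : h = 0
  · rw [h0, coeff_zero, norm_zero]
    exact hM0
  · obtain ⟨c, η, hc, hη, hf⟩ := fac0 D h h0 hd
    obtain ⟨j, hj⟩ := good_dir h1 D η hη
    have h2 : ‖c‖ ≤ M := by
      have h3 := hM j
      rw [← hev_one D h hd, hf, norm_mul, norm_prod, Finset.prod_congr rfl fun l _ => hj l,
        Finset.prod_const_one, mul_one] at h3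
      exact h3
    have := infinite_of h1
    have h4 : h = C c * ∏ l, (C (η l).2 * X - C (η l).1) := by
      apply Polynomial.funext
      intro x
      rw [← hev_one D h hd, hf, eval_mul, eval_C, eval_prod]
      congr 1
      apply Finset.prod_congr rfl
      intro l _
      unfold wd
      simp
      ring
    rw [h4, coeff_C_mul, norm_mul]
    have h5 : ‖(∏ l, (C (η l).2 * X - C (η l).1)).coeff i‖ ≤ 1 := by
      apply prod_coeff_le
      intro l _ i
      have e1 : ‖(η l).1‖ ≤ 1 := (norm_fst_le _).trans (hη l).le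
      have e2 : ‖(η l).2‖ ≤ 1 := (norm_snd_le _).trans (hη l).le
      rw [coeff_sub, coeff_C_mul]
      refine (sub_le_max' _ _).trans (max_le ?_ ?_)
      · rw [coeff_X]
        split_ifs
        · rw [mul_one]
          exact e2
        · simp
      · rw [coeff_C]
        split_ifs
        · exact e1
        · simp
    calc ‖c‖ * ‖(∏ l, (C (η l).2 * X - C (η l).1)).coeff i‖ ≤ M * 1 :=
          mul_le_mul h2 h5 (norm_nonneg _) hM0
      _ = M := mul_one M

omit [IsAlgClosed Ω] in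
theorem eval_le (h : Polynomial Ω) (M : ℝ) (hM : ∀ i, ‖h.coeff i‖ ≤ M) (t : Ω) (ht : ‖t‖ ≤ 1) :
    ‖h.eval t‖ ≤ M := by
  have hM0 : 0 ≤ M := (norm_nonneg _).trans (hM 0)
  rw [eval_eq_sum_range]
  apply norm_sum_le' _ _ _ hM0
  intro i _
  rw [norm_mul, norm_pow]
  calc ‖h.coeff i‖ * ‖t‖ ^ i ≤ M * 1 :=
        mul_le_mul (hM i) (pow_le_one₀ (norm_nonneg _) ht) (by positivity) hM0
    _ = M := mul_one M

omit [IsAlgClosed Ω] in
theorem eval_sub_zero (h : Polynomial Ω) (M : ℝ) (hM : ∀ i, ‖h.coeff i‖ ≤ M) (t : Ω) (ht : ‖t‖ ≤ 1) :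
    ‖h.eval t - h.coeff 0‖ ≤ M * ‖t‖ := by
  have h1 : h.eval t = (divX h).eval t * t + h.coeff 0 := by
    conv_lhs => rw [← divX_mul_X_add h]
    simp
  rw [h1, add_sub_cancel_right, norm_mul]
  refine mul_le_mul_of_nonneg_right ?_ (norm_nonneg _)
  exact eval_le _ M (fun i => by rw [coeff_divX]; exact hM _) t ht

omit [IsAlgClosed Ω] in
theorem eval_sub_one (h : Polynomial Ω) (M : ℝ) (hM : ∀ i, ‖h.coeff i‖ ≤ M) (t : Ω) (ht : ‖t‖ ≤ 1)
    (h0 : h.coeff 0 = 0) : ‖h.eval t - h.coeff 1 * t‖ ≤ M * ‖t‖ * ‖t‖ := by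
  have h1 : h.eval t = (divX h).eval t * t + h.coeff 0 := by
    conv_lhs => rw [← divX_mul_X_add h]
    simp
  have h2 : h.eval t - h.coeff 1 * t = ((divX h).eval t - (divX h).coeff 0) * t := by
    rw [h1, h0, coeff_divX]
    ring
  rw [h2, norm_mul]
  refine mul_le_mul_of_nonneg_right ?_ (norm_nonneg _)
  exact eval_sub_zero _ M (fun i => by rw [coeff_divX]; exact hM _) t ht

/-- normalised factorisation of the values of the map -/
theorem fac (d : ℕ) (hd : 1 ≤ d) (p q : Polynomial Ω) (hr : Rat d p q) (Y : Ω × Ω) (hY : Y ≠ 0) :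
    ∃ (c : Ω) (η : Fin d → Ω × Ω), c ≠ 0 ∧ (∀ l, ‖η l‖ = 1) ∧
      ∀ X, wd (bK d p q X) Y = c * ∏ l, wd X (η l) := by
  obtain ⟨hco, hdd⟩ := hr
  have hp : p.natDegree ≤ d := hdd ▸ le_max_left _ _
  have hq : q.natDegree ≤ d := hdd ▸ le_max_right _ _
  have h0 : C Y.2 * p - C Y.1 * q ≠ 0 := by
    intro h
    have hpq : C Y.2 * p = C Y.1 * q := sub_eq_zero.mp h
    obtain ⟨a, b, hab⟩ := hco
    -- `p` and `q` are constants
    have hu : p.natDegree = 0 ∧ q.natDegree = 0 := by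
      by_cases hY2 : Y.2 = 0
      · have hY1 : Y.1 ≠ 0 := fun h1 => hY (Prod.ext h1 hY2)
        rw [hY2, C_0, zero_mul] at hpq
        have hq0 : q = 0 := by
          rcases mul_eq_zero.mp hpq.symm with h2 | h2
          · exact absurd (C_eq_zero.mp h2) hY1
          · exact h2
        rw [hq0, mul_zero, add_zero] at hab
        have : IsUnit p := IsUnit.of_mul_eq_one a (by rw [mul_comm]; exact hab)
        exact ⟨natDegree_eq_zero_of_isUnit this, by rw [hq0]; simp⟩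
      · have hp' : p = C (Y.1 / Y.2) * q := by
          have h3 : C (Y.2⁻¹) * (C Y.2 * p) = C (Y.2⁻¹) * (C Y.1 * q) := by rw [hpq]
          rw [← mul_assoc, ← C_mul, inv_mul_cancel₀ hY2, C_1, one_mul, ← mul_assoc, ← C_mul] at h3
          rw [h3]
          congr 2
          rw [div_eq_inv_mul]
        have hu : IsUnit q := by
          apply IsUnit.of_mul_eq_one (a * C (Y.1 / Y.2) + b)
          rw [← hab, hp']
          ring
        have h5 := natDegree_eq_zero_of_isUnit hu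
        refine ⟨?_, h5⟩
        rw [hp']
        have := natDegree_C_mul_le (Y.1 / Y.2) q
        omega
    rw [hu.1, hu.2] at hdd
    simp at hdd
    omega
  have hdeg : (C Y.2 * p - C Y.1 * q).natDegree ≤ d := by
    refine (natDegree_sub_le _ _).trans (max_le ?_ ?_)
    · exact (natDegree_C_mul_le _ _).trans hp
    · exact (natDegree_C_mul_le _ _).trans hq
  obtain ⟨c, η, hc, hη, h⟩ := fac0 d _ h0 hdeg
  refine ⟨c, η, hc, hη, ?_⟩
  intro X
  rw [← h X]
  unfold wd bK hev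
  simp only [coeff_sub, coeff_C_mul]
  rw [Finset.sum_mul, Finset.sum_mul, ← Finset.sum_sub_distrib]
  apply Finset.sum_congr rfl
  intro i _
  ring

end ultra

end Pool.Agent.Q154.OP
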