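import Pool.Agent.Q154.OP.AL2

/-!
# OP-AL, part 3: the map near an attracting fixed point
-/

set_option autoImplicit false

namespace Pool.Agent.Q154.OP

open Pool.Agent.W277.UB Pool.Agent.W277.UG Pool.Agent.W277.UH Finset Polynomial
open Pool.Agent.Y706.CH (bK)
open Pool.Agent.Q103.OP (Wr Jv mlt Rat)

universe u

/-- the data at a normalised attracting fixed point -/
structure Att (Ω : Type u) [NormedField Ω] (d : ℕ) (p q : Polynomial Ω) (R : ℝ) (X₀ E : Ω × Ω)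
    (μ lam : Ω) : Prop where
  h1 : ∀ n : ℕ, n ≠ 0 → ‖(n : Ω)‖ = 1
  hd : 2 ≤ d
  rat : Rat d p q
  hR : 0 ≤ R
  lo : ∀ Z : Ω × Ω, Real.exp (-R) * ‖Z‖ ^ d ≤ ‖bK d p q Z‖
  up : ∀ Z : Ω × Ω, ‖bK d p q Z‖ ≤ Real.exp R * ‖Z‖ ^ d
  hX : ‖X₀‖ = 1
  hE : ‖E‖ = 1
  hXE : ‖wd X₀ E‖ = 1
  fix : bK d p q X₀ = μ • X₀
  hJ : Jv d p q X₀ = lam * μ ^ 2
  hl0 : lam ≠ 0
  hl1 : ‖lam‖ < 1

section

variable {Ω : Type u} [NormedField Ω] [IsUltrametricDist Ω] [IsAlgClosed Ω]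
  {d : ℕ} {p q : Polynomial Ω} {R : ℝ} {X₀ E : Ω × Ω} {μ lam : Ω}

theorem ne_of_norm_one {Z : Ω × Ω} (h : ‖Z‖ = 1) : Z ≠ 0 := by
  rintro rfl
  simp at h

theorem exists_E (X₀ : Ω × Ω) (h : ‖X₀‖ = 1) : ∃ E : Ω × Ω, ‖E‖ = 1 ∧ ‖wd X₀ E‖ = 1 := by
  have h0 := h
  rw [Prod.norm_def] at h
  rcases max_choice ‖X₀.1‖ ‖X₀.2‖ with h2 | h2
  · refine ⟨(0, 1), norm_e2, ?_⟩
    unfold wd
    rw [h2] at h
    simpa using h
  · refine ⟨(1, 0), norm_e1, ?_⟩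
    unfold wd
    rw [h2] at h
    simpa using h

namespace Att

variable (A : Att Ω d p q R X₀ E μ lam)
include A

theorem ntpos : 0 < ‖lam‖ := norm_pos_iff.mpr A.hl0

theorem mu_norm : ‖bK d p q X₀‖ = ‖μ‖ := by
  rw [A.fix, norm_smul, A.hX, mul_one]

theorem mu_lo : Real.exp (-R) ≤ ‖μ‖ := by
  have := A.lo X₀
  rwa [A.hX, one_pow, mul_one, A.mu_norm] at this

theorem mu_up : ‖μ‖ ≤ Real.exp R := by
  have := A.up X₀
  rwa [A.hX, one_pow, mul_one, A.mu_norm] at this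

theorem mu_pos : 0 < ‖μ‖ := (Real.exp_pos _).trans_le A.mu_lo

theorem mu_ne : μ ≠ 0 := norm_pos_iff.mp A.mu_pos

theorem F_ne {Z : Ω × Ω} (hZ : Z ≠ 0) : bK d p q Z ≠ 0 := by
  intro h
  have h1 := A.lo Z
  rw [h, norm_zero] at h1
  have h2 : 0 < Real.exp (-R) * ‖Z‖ ^ d :=
    mul_pos (Real.exp_pos _) (pow_pos (norm_pos_iff.mpr hZ) _)
  linarith

theorem F_iter_ne {Z : Ω × Ω} (hZ : Z ≠ 0) (n : ℕ) : (bK d p q)^[n] Z ≠ 0 := by
  induction n with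
  | zero => exact hZ
  | succ n ih =>
    rw [Function.iterate_succ_apply']
    exact A.F_ne ih

theorem hp : p.natDegree ≤ d := A.rat.2 ▸ le_max_left _ _
theorem hq : q.natDegree ≤ d := A.rat.2 ▸ le_max_right _ _

/-- norms from coordinates -/
theorem norm_co (Z : Ω × Ω) : ‖Z‖ = max ‖wd Z X₀‖ ‖wd Z E‖ := by
  apply le_antisymm
  · exact norm_le_of_wd A.hX A.hE A.hXE Z
  · apply max_le
    · have := norm_wd_le Z X₀
      rwa [A.hX, mul_one] at this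
    · have := norm_wd_le Z E
      rwa [A.hE, mul_one] at this

theorem wdE_ne : wd E X₀ ≠ 0 := by
  intro h
  have h2 := A.hXE
  rw [wd_comm, h, neg_zero, norm_zero] at h2
  exact zero_ne_one h2

/-- coefficient bound -/
theorem Pv_le (V W : Ω × Ω) (hV : ‖V‖ ≤ 1) (hW : ‖W‖ ≤ 1) (i : ℕ) :
    ‖(Pv d p q X₀ V W).coeff i‖ ≤ Real.exp R := by
  apply coeff_le A.h1 d _ (Pv_deg _ _ _ _ _ _)
  intro j
  rw [Pv_eval]
  refine (norm_wd_le _ _).trans ?_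
  have h2 : ‖X₀ + (j : Ω) • V‖ ≤ 1 := by
    have e : X₀ + (j : Ω) • V = X₀ - (-(j : Ω)) • V := by
      rw [neg_smul, sub_neg_eq_add]
    rw [e]
    refine (norm_sub_le_max _ _).trans (max_le A.hX.le ?_)
    rw [norm_smul, norm_neg]
    exact mul_le_one₀ (norm_nat_le A.h1 j) (norm_nonneg _) hV
  calc ‖bK d p q (X₀ + (j : Ω) • V)‖ * ‖W‖ ≤ ‖bK d p q (X₀ + (j : Ω) • V)‖ * 1 :=
        mul_le_mul_of_nonneg_left hW (norm_nonneg _)
    _ ≤ Real.exp R * ‖X₀ + (j : Ω) • V‖ ^ d := by rw [mul_one]; exact A.up _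
    _ ≤ Real.exp R * 1 := mul_le_mul_of_nonneg_left (pow_le_one₀ (norm_nonneg _) h2)
        (Real.exp_pos _).le
    _ = Real.exp R := mul_one _

theorem al0 : (Pv d p q X₀ E X₀).coeff 0 = 0 := by
  have h := Pv_eval d p q X₀ E X₀ 0
  rw [zero_smul, add_zero, A.fix, wd_smul_left, wd_self, mul_zero, ← coeff_zero_eq_eval_zero] at h
  exact h

theorem be0 : ‖(Pv d p q X₀ E E).coeff 0‖ = ‖μ‖ := by
  have h := Pv_eval d p q X₀ E E 0
  rw [zero_smul, add_zero, A.fix, wd_smul_left, ← coeff_zero_eq_eval_zero] at h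
  rw [h, norm_mul, A.hXE, mul_one]

theorem al1 : ‖(Pv d p q X₀ E X₀).coeff 1‖ = ‖lam‖ * ‖μ‖ := by
  have := infinite_of A.h1
  have h := Wr_Pv d (by have := A.hd; omega) p q A.hp A.hq X₀ E X₀ E A.wdE_ne 0
  unfold Wr at h
  rw [eval_sub, eval_mul, eval_mul, ← coeff_zero_eq_eval_zero, ← coeff_zero_eq_eval_zero,
    ← coeff_zero_eq_eval_zero, A.al0, zero_mul, sub_zero, zero_smul, add_zero, A.hJ,
    coeff_derivative] at h
  simp only [Nat.cast_zero, zero_add, mul_one] at h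
  have h2 := congrArg norm h
  rw [norm_mul, A.be0, norm_mul, A.hXE, norm_mul, wd_comm E, norm_neg, A.hXE, norm_mul,
    norm_pow] at h2
  have h3 := A.mu_pos
  have h4 : (‖(Pv d p q X₀ E X₀).coeff 1‖ - ‖lam‖ * ‖μ‖) * ‖μ‖ = 0 := by
    linear_combination h2
  rcases mul_eq_zero.mp h4 with h5 | h5
  · linarith
  · exact absurd h5 h3.ne'

/-- contraction near the fixed point -/
theorem contr0 (t : Ω) (ht : ‖t‖ < ‖lam‖ * Real.exp (-(2 * R))) :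
    ‖wd (bK d p q (X₀ + t • E)) X₀‖ = ‖lam‖ * ‖μ‖ * ‖t‖ ∧
      ‖bK d p q (X₀ + t • E)‖ = ‖μ‖ := by
  have hlp := A.ntpos
  have hmp := A.mu_pos
  have hRe : Real.exp (-(2 * R)) ≤ 1 := by
    rw [Real.exp_le_one_iff]
    have := A.hR
    linarith
  have ht1 : ‖t‖ ≤ 1 := by
    refine ht.le.trans ?_
    exact mul_le_one₀ A.hl1.le (Real.exp_pos _).le hRe
  have h3 : Real.exp R * ‖t‖ < ‖lam‖ * ‖μ‖ := by
    calc Real.exp R * ‖t‖ < Real.exp R * (‖lam‖ * Real.exp (-(2 * R))) :=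
          mul_lt_mul_of_pos_left ht (Real.exp_pos _)
      _ = ‖lam‖ * Real.exp (-R) := by
          rw [mul_left_comm, ← Real.exp_add]
          congr 2
          ring
      _ ≤ ‖lam‖ * ‖μ‖ := mul_le_mul_of_nonneg_left A.mu_lo hlp.le
  have h4 : ‖lam‖ * ‖μ‖ < ‖μ‖ := by
    calc ‖lam‖ * ‖μ‖ < 1 * ‖μ‖ := mul_lt_mul_of_pos_right A.hl1 hmp
      _ = ‖μ‖ := one_mul _
  have ha : ‖wd (bK d p q (X₀ + t • E)) X₀‖ = ‖lam‖ * ‖μ‖ * ‖t‖ := by
    rw [← Pv_eval]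
    by_cases ht0 : t = 0
    · rw [ht0, ← coeff_zero_eq_eval_zero, A.al0]
      simp
    · have htp : 0 < ‖t‖ := norm_pos_iff.mpr ht0
      have h5 := eval_sub_one (Pv d p q X₀ E X₀) (Real.exp R)
        (fun i => A.Pv_le E X₀ A.hE.le A.hX.le i) t ht1 A.al0
      have h6 : ‖(Pv d p q X₀ E X₀).coeff 1 * t‖ = ‖lam‖ * ‖μ‖ * ‖t‖ := by
        rw [norm_mul, A.al1]
      rw [← h6]
      apply norm_eq_of_sub_lt
      rw [h6]
      exact lt_of_le_of_lt h5 (mul_lt_mul_of_pos_right h3 htp)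
  have hb : ‖wd (bK d p q (X₀ + t • E)) E‖ = ‖μ‖ := by
    rw [← Pv_eval, ← A.be0]
    apply norm_eq_of_sub_lt
    rw [A.be0]
    exact lt_of_le_of_lt (eval_sub_zero _ (Real.exp R) (fun i => A.Pv_le E E A.hE.le A.hE.le i)
      t ht1) (h3.trans h4)
  refine ⟨ha, ?_⟩
  rw [A.norm_co, ha, hb]
  apply max_eq_right
  calc ‖lam‖ * ‖μ‖ * ‖t‖ ≤ ‖lam‖ * ‖μ‖ * 1 := mul_le_mul_of_nonneg_left ht1 (by positivity)
    _ ≤ ‖μ‖ := by rw [mul_one]; exact h4.le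

/-- contraction near the fixed point, for vectors -/
theorem contr (Z : Ω × Ω) (hZ : ‖wd Z X₀‖ < ‖lam‖ * Real.exp (-(2 * R)) * ‖Z‖) :
    ‖wd (bK d p q Z) X₀‖ * ‖Z‖ = ‖lam‖ * ‖wd Z X₀‖ * ‖bK d p q Z‖ := by
  have hRe : Real.exp (-(2 * R)) ≤ 1 := by
    rw [Real.exp_le_one_iff]
    have := A.hR
    linarith
  have hk1 : ‖lam‖ * Real.exp (-(2 * R)) ≤ 1 := mul_le_one₀ A.hl1.le (Real.exp_pos _).le hRe
  have hZ0 : Z ≠ 0 := by
    rintro rfl
    rw [norm_zero, mul_zero] at hZ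
    exact absurd hZ (not_lt.mpr (norm_nonneg _))
  have hZp : 0 < ‖Z‖ := norm_pos_iff.mpr hZ0
  have hZ1 : ‖wd Z X₀‖ < ‖Z‖ := by
    calc ‖wd Z X₀‖ < ‖lam‖ * Real.exp (-(2 * R)) * ‖Z‖ := hZ
      _ ≤ 1 * ‖Z‖ := mul_le_mul_of_nonneg_right hk1 hZp.le
      _ = ‖Z‖ := one_mul _
  have hZE : ‖wd Z E‖ = ‖Z‖ := by
    have h2 := A.norm_co Z
    rcases max_choice ‖wd Z X₀‖ ‖wd Z E‖ with h3 | h3
    · rw [h3] at h2
      linarith
    · rw [h3] at h2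
      exact h2.symm
  have hXE0 : wd X₀ E ≠ 0 := by
    rw [wd_comm]
    exact neg_ne_zero.mpr A.wdE_ne
  have hZE0 : wd Z E ≠ 0 := norm_pos_iff.mp (by rw [hZE]; exact hZp)
  -- decomposition
  obtain ⟨a, ha⟩ : ∃ a, a = wd Z E / wd X₀ E := ⟨_, rfl⟩
  obtain ⟨t, ht⟩ : ∃ t, t = wd X₀ Z / wd Z E := ⟨_, rfl⟩
  have ha0 : a ≠ 0 := by rw [ha]; exact div_ne_zero hZE0 hXE0
  have han : ‖a‖ = ‖Z‖ := by rw [ha, norm_div, hZE, A.hXE, div_one]
  have htn : ‖t‖ * ‖Z‖ = ‖wd Z X₀‖ := by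
    rw [ht, norm_div, hZE, wd_comm X₀ Z, norm_neg, div_mul_cancel₀ _ hZp.ne']
  have hdec : Z = a • (X₀ + t • E) := by
    have h3 := wd_three X₀ E Z
    have h4 : (wd X₀ E)⁻¹ • (wd X₀ E • Z) = (wd X₀ E)⁻¹ • (wd X₀ Z • E - wd E Z • X₀) := by rw [h3]
    rw [smul_smul, inv_mul_cancel₀ hXE0, one_smul] at h4
    rw [h4, wd_comm E Z, neg_smul, sub_neg_eq_add, smul_add, smul_add, smul_smul, smul_smul,
      smul_smul, add_comm]
    congr 2
    · rw [ha]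
      field_simp
    · rw [ha, ht]
      field_simp
  have ht1 : ‖t‖ < ‖lam‖ * Real.exp (-(2 * R)) := by
    rw [← htn] at hZ
    exact lt_of_mul_lt_mul_right hZ hZp.le
  obtain ⟨h5, h6⟩ := A.contr0 t ht1
  have h7 : bK d p q Z = a ^ d • bK d p q (X₀ + t • E) := by
    conv_lhs => rw [hdec]
    exact bK_smul d p q a _
  rw [h7, wd_smul_left, norm_mul, norm_smul, h5, h6, ← htn]
  ring

/-- parallel to the fixed point: stays parallel -/
theorem stay (V : Ω × Ω) (h : wd V X₀ = 0) (n : ℕ) : wd ((bK d p q)^[n] V) X₀ = 0 := by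
  induction n with
  | zero => exact h
  | succ n ih =>
    rw [Function.iterate_succ_apply']
    obtain ⟨s, hs⟩ := (wd_zero_iff (ne_of_norm_one A.hX)).mp ih
    rw [hs, bK_smul, A.fix, wd_smul_left, wd_smul_left, wd_self]
    ring

/-- the orbit of the fixed vector and the Jacobian along it -/
theorem orbit (n : ℕ) : ∃ m : Ω, m ≠ 0 ∧ (bK d p q)^[n] X₀ = m • X₀ ∧
    ∏ j ∈ range n, Jv d p q ((bK d p q)^[j] X₀) = m ^ 2 * lam ^ n := by
  induction n with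
  | zero => exact ⟨1, one_ne_zero, by simp, by simp⟩
  | succ n ih =>
    obtain ⟨m, hm, h2, h3⟩ := ih
    refine ⟨m ^ d * μ, mul_ne_zero (pow_ne_zero _ hm) A.mu_ne, ?_, ?_⟩
    · rw [Function.iterate_succ_apply', h2, bK_smul, A.fix, smul_smul]
    · rw [Finset.prod_range_succ, h3, h2]
      have h4 : Jv d p q (m • X₀) = m ^ (2 * d - 2) * Jv d p q X₀ := by
        unfold Jv
        rw [hev_smul]
      rw [h4, A.hJ]
      have h5 : m ^ d * m ^ d = m ^ 2 * m ^ (2 * d - 2) := by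
        rw [← pow_add, ← pow_add]
        congr 1
        have := A.hd
        omega
      linear_combination (-(lam ^ (n + 1) * μ ^ 2)) * h5

/-- another preimage of the fixed point -/
theorem other : ∃ x : Ω × Ω, ‖x‖ = 1 ∧ wd x X₀ ≠ 0 ∧ wd (bK d p q x) X₀ = 0 := by
  have := infinite_of A.h1
  have hd := A.hd
  obtain ⟨c, η, hc, hη, hf⟩ := fac d (by omega) p q A.rat X₀ (ne_of_norm_one A.hX)
  by_contra hcon
  push Not at hcon
  have h2 : ∀ l, wd (η l) X₀ = 0 := by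
    intro l
    by_contra h3
    apply hcon (η l) (hη l) h3
    rw [hf, Finset.prod_eq_zero (Finset.mem_univ l) (wd_self _), mul_zero]
  choose s hs using fun l => (wd_zero_iff (ne_of_norm_one A.hX)).mp (h2 l)
  have h4 : Pv d p q X₀ E X₀ = C (c * ∏ l, (s l * wd E X₀)) * X ^ d := by
    apply Polynomial.funext
    intro t
    rw [Pv_eval, hf, eval_mul, eval_C, eval_pow, eval_X]
    have h5 : ∀ l, wd (X₀ + t • E) (η l) = s l * wd E X₀ * t := by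
      intro l
      rw [hs l, wd_smul_right, wd_add_left, wd_self, wd_smul_left]
      ring
    rw [Finset.prod_congr rfl fun l _ => h5 l, Finset.prod_mul_distrib, Finset.prod_const,
      Finset.card_univ, Fintype.card_fin, mul_assoc]
  have h6 := A.al1
  rw [h4, coeff_C_mul, coeff_X_pow, if_neg (by omega), mul_zero, norm_zero] at h6
  have h7 := mul_pos A.ntpos A.mu_pos
  rw [← h6] at h7
  exact lt_irrefl _ h7

end Att

end

end Pool.Agent.Q154.OP
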